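import Pool.Agent.helper36.HK.Spec

set_option autoImplicit false

open Finset
open Pool.Agent.FI

namespace Pool.Agent.HK

theorem CNP_uc : UC 1 (fun _ => (1 : ℂ)) := by
  refine ⟨?_, ?_, ?_, ?_, ?_⟩
  · intro z w _ _
    simp
  · intro u _
    rfl
  · intro z _ h
    exact absurd (Nat.coprime_one_right _) h
  · intro z _ _
    simp
  · intro t _ _
    rfl

theorem CNP_rf (n : ℕ) : rf (fun _ => (1 : ℂ)) n = ((#{z ∈ FF n | nn z = n} : ℕ) : ℂ) := by
  unfold rf
  rw [Finset.sum_const, nsmul_eq_mul, mul_one]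

theorem CNP (hRSP : RSP_stmt) (hRIN : RIN_stmt) (hTHU : THU_stmt) (hSIZ : SIZ_stmt) : CNP_stmt := by
  intro p hp
  have hin := hRIN 1 (fun _ => (1 : ℂ)) CNP_uc
  have h1 := hin.1
  have hp1 : ¬ p ∣ 1 := by
    intro h
    exact hp.one_lt.ne' (Nat.dvd_one.1 h)
  by_cases h2 : p = 2
  · have h3 := (hin.2 p 1 hp le_rfl).1 (Or.inl h2)
    rw [mul_one, CNP_rf] at h3
    have h4 : #{z ∈ FF p | nn z = p} = 0 := by exact_mod_cast h3
    rw [h4, if_neg]
    omega
  · have hodd : p % 2 = 1 := by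
      rcases hp.eq_two_or_odd with h | h
      · exact absurd h h2
      · exact h
    by_cases h8 : p % 8 = 1 ∨ p % 8 = 7
    · rw [if_pos h8]
      haveI : Fact p.Prime := ⟨hp⟩
      obtain ⟨s, hs⟩ := (ZMod.exists_sq_eq_two_iff h2).2 h8
      have hdv : (p : ℤ) ∣ (2 * (s.val : ℤ)) ^ 2 - 8 := by
        rw [← ZMod.intCast_zmod_eq_zero_iff_dvd]
        push_cast
        rw [ZMod.natCast_zmod_val]
        linear_combination (-4 : ZMod p) * hs
      obtain ⟨z, hz, _⟩ := hTHU p (2 * (s.val : ℤ)) (Nat.odd_iff.2 hodd) hdv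
      have h3 := hRSP 1 (fun _ => (1 : ℂ)) CNP_uc p z hp h2 hz hp1 1 le_rfl
      rw [if_neg hp1, h1, mul_one, CNP_rf] at h3
      have h4 : ((#{z ∈ FF p | nn z = p} : ℕ) : ℂ) = ((2 : ℕ) : ℂ) := by
        rw [h3]
        simp
        norm_num
      exact_mod_cast h4
    · rw [if_neg h8]
      have h35 : p % 8 = 3 ∨ p % 8 = 5 := by omega
      have h3 := (hin.2 p 1 hp le_rfl).2 h35 hp1
      rw [mul_one, if_neg hp1, CNP_rf] at h3
      exact_mod_cast h3

end Pool.Agent.HK
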